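import Mathlib

/-!
# The exceptional classes of Chowla's problem multiply

Let `p(d, a)` be the least prime in the reduced class `a` modulo `d`, and call the class exceptional for the
exponent `L` if `p(d, a) ≥ d ^ L`.

* Let `0 < L' < L` and `r ≤ d ^ (L / L' - 1)`. The proportion of the exceptional classes for `L'` among the reduced
  classes modulo `d r` is at least the proportion of the exceptional classes for `L` among those modulo `d`.
* If every large modulus `m` has at most `m ^ θ` exceptional classes for the exponent `L`, then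
  `p(d, a) < d ^ (L / (1 - θ) + ε)` for ALL reduced classes of all large moduli.
* Chowla's conjecture (`p(d, a) < d ^ (1 + ε)` for all reduced classes of all large `d`) is equivalent to: for
  all `ε, η > 0` every large modulus `m` has at most `m ^ η` exceptional classes for `1 + ε`.

Proof: a prime in a class modulo `d r` over the class `a` modulo `d` is in the class `a` modulo `d`.
-/

set_option autoImplicit false

namespace Pool.Agent.Results.MP_42948a_nt.ExceptionalClassesMultiply

open Finset Filter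

/-- the least prime `p ≡ a (mod d)`; for `a < d` this is the least prime of the form `a + k d`, `k ≥ 0` -/
noncomputable def leastPrime (d a : ℕ) : ℕ := sInf {p : ℕ | p.Prime ∧ p ≡ a [MOD d]}

open Classical in
/-- the classes `a` modulo `d`, `0 ≤ a < d`, `(a, d) = 1`, with `p(d, a) ≥ d ^ L` -/
noncomputable def exceptional (L : ℝ) (d : ℕ) : Finset ℕ :=
  (range d).filter (fun a => a.Coprime d ∧ (d : ℝ) ^ L ≤ leastPrime d a)

/-- the least prime of a class over `a` is at least as large -/
lemma mono {d r a b : ℕ} (hdr : 0 < d * r) (hb : b.Coprime (d * r)) (hab : b ≡ a [MOD d]) :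
    leastPrime d a ≤ leastPrime (d * r) b := by
  obtain ⟨q, -, hq, hqb⟩ := Nat.forall_exists_prime_gt_and_modEq (d * r) hdr.ne' hb
  have hne : {p : ℕ | p.Prime ∧ p ≡ b [MOD d * r]}.Nonempty := ⟨q, hq, hqb⟩
  have hmem := Nat.sInf_mem hne
  unfold leastPrime
  exact Nat.sInf_le ⟨hmem.1, (hmem.2.of_mul_right r).trans hab⟩

/-- the reduced classes modulo `d r` over the class `a` modulo `d` -/
def lifts (d r a : ℕ) : Finset ℕ := (range (d * r)).filter (fun b => b.Coprime (d * r) ∧ b ≡ a [MOD d])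

/-- there are `φ(d r) / φ(d)` of them -/
lemma card_lifts {d r a : ℕ} (hd : 0 < d) (hr : 0 < r) (ha : a.Coprime d) :
    (d * r).totient / d.totient ≤ (lifts d r a).card := by
  classical
  have hdr : 0 < d * r := Nat.mul_pos hd hr
  haveI : NeZero d := ⟨hd.ne'⟩
  haveI : NeZero (d * r) := ⟨hdr.ne'⟩
  have hdvd : d ∣ d * r := Dvd.intro r rfl
  set f : (ZMod (d * r))ˣ →* (ZMod d)ˣ := ZMod.unitsMap hdvd with hf
  have hsurj : Function.Surjective f := ZMod.unitsMap_surjective hdvd
  set u : (ZMod d)ˣ := ZMod.unitOfCoprime a ha with hu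
  have hfib : ∀ y : (ZMod d)ˣ, (univ.filter fun g => f g = y).card = (univ.filter fun g => f g = u).card :=
    fun y => MonoidHom.card_fiber_eq_of_mem_range f (hsurj y) (hsurj u)
  have hsum : (univ : Finset (ZMod (d * r))ˣ).card =
      ∑ y : (ZMod d)ˣ, (univ.filter fun g => f g = y).card :=
    Finset.card_eq_sum_card_fiberwise (fun x _ => mem_univ (f x))
  rw [Finset.sum_congr rfl (fun y _ => hfib y), sum_const, smul_eq_mul, card_univ, card_univ,
    ZMod.card_units_eq_totient, ZMod.card_units_eq_totient] at hsum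
  have hcard : (d * r).totient / d.totient = (univ.filter fun g => f g = u).card := by
    rw [hsum]
    exact Nat.mul_div_cancel_left _ (Nat.totient_pos.2 hd)
  rw [hcard]
  apply Finset.card_le_card_of_injOn (fun g : (ZMod (d * r))ˣ => (g : ZMod (d * r)).val)
  · intro g hg
    rw [mem_coe, mem_filter] at hg
    rw [mem_coe]
    unfold lifts
    rw [mem_filter, mem_range]
    refine ⟨ZMod.val_lt _, ZMod.val_coe_unit_coprime g, ?_⟩
    rw [← ZMod.natCast_eq_natCast_iff]
    have h1 : ((f g : (ZMod d)ˣ) : ZMod d) = (a : ZMod d) := by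
      rw [hg.2, hu, ZMod.coe_unitOfCoprime]
    rw [← h1, hf, ZMod.unitsMap_def, Units.coe_map]
    simp only [MonoidHom.coe_coe, ZMod.castHom_apply]
    rw [ZMod.natCast_val]
  · intro x _ y _ hxy
    exact Units.ext (ZMod.val_injective _ hxy)

/-- **Exceptional classes multiply.** -/
lemma multiply {L' L : ℝ} (h0 : 0 < L') {d r : ℕ} (hd : 2 ≤ d) (hr : 1 ≤ r)
    (hrR : (r : ℝ) ≤ (d : ℝ) ^ (L / L' - 1)) :
    (d * r).totient / d.totient * (exceptional L d).card ≤ (exceptional L' (d * r)).card := by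
  classical
  have hd0 : (0 : ℝ) < d := by exact_mod_cast (by omega : 0 < d)
  have hdr : 0 < d * r := Nat.mul_pos (by omega) hr
  have hdR : (d : ℝ) * (d : ℝ) ^ (L / L' - 1) = (d : ℝ) ^ (L / L') := by
    rw [mul_comm, ← Real.rpow_add_one hd0.ne']
    congr 1
    ring
  have hDX : ((d * r : ℕ) : ℝ) ≤ (d : ℝ) ^ (L / L') := by
    push_cast
    rw [← hdR]
    exact mul_le_mul_of_nonneg_left hrR hd0.le
  have hpow : ((d * r : ℕ) : ℝ) ^ L' ≤ (d : ℝ) ^ L := by
    calc ((d * r : ℕ) : ℝ) ^ L' ≤ ((d : ℝ) ^ (L / L')) ^ L' :=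
          Real.rpow_le_rpow (Nat.cast_nonneg _) hDX h0.le
      _ = (d : ℝ) ^ L := by
          rw [← Real.rpow_mul hd0.le]
          congr 1
          field_simp
  have hdisj : ∀ x ∈ exceptional L d, ∀ y ∈ exceptional L d, x ≠ y →
      Disjoint (lifts d r x) (lifts d r y) := by
    intro x hx y hy hxy
    rw [Finset.disjoint_left]
    intro b hb1 hb2
    unfold lifts at hb1 hb2
    unfold exceptional at hx hy
    rw [mem_filter] at hb1 hb2
    rw [mem_filter, mem_range] at hx hy
    have h1 : x ≡ y [MOD d] := hb1.2.2.symm.trans hb2.2.2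
    exact hxy (h1.eq_of_lt_of_lt hx.1 hy.1)
  have hsub : (exceptional L d).biUnion (lifts d r) ⊆ exceptional L' (d * r) := by
    intro b hb
    rw [mem_biUnion] at hb
    obtain ⟨a, ha, hb⟩ := hb
    unfold exceptional at ha ⊢
    unfold lifts at hb
    rw [mem_filter, mem_range] at ha hb ⊢
    refine ⟨hb.1, hb.2.1, hpow.trans (ha.2.2.trans ?_)⟩
    exact_mod_cast mono hdr hb.2.1 hb.2.2
  calc (d * r).totient / d.totient * (exceptional L d).card
      = ∑ _a ∈ exceptional L d, (d * r).totient / d.totient := by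
        rw [sum_const, smul_eq_mul, mul_comm]
    _ ≤ ∑ a ∈ exceptional L d, (lifts d r a).card := by
        refine sum_le_sum fun a ha => ?_
        unfold exceptional at ha
        rw [mem_filter] at ha
        exact card_lifts (by omega) hr ha.2.1
    _ = ((exceptional L d).biUnion (lifts d r)).card := (card_biUnion hdisj).symm
    _ ≤ _ := card_le_card hsub

/-- a power of two is chosen -/
lemma choose_r {R : ℝ} (hR : 1 ≤ R) : ∃ r : ℕ, 1 ≤ r ∧ (r : ℝ) ≤ R ∧ R / 4 ≤ (r.totient : ℝ) := by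
  set N : ℕ := ⌊R⌋₊ with hN
  have hN1 : 1 ≤ N := Nat.le_floor (by simpa using hR)
  set k : ℕ := Nat.log 2 N with hk
  have h1 : 2 ^ k ≤ N := Nat.pow_log_le_self 2 (by omega)
  have h2 : N < 2 ^ (k + 1) := Nat.lt_pow_succ_log_self (by norm_num) N
  have h3 : R < (2 ^ (k + 1) : ℕ) := by
    have h4 : R < N + 1 := Nat.lt_floor_add_one R
    have h5 : ((N + 1 : ℕ) : ℝ) ≤ ((2 ^ (k + 1) : ℕ) : ℝ) := by exact_mod_cast h2
    push_cast at h5 ⊢
    linarith
  refine ⟨2 ^ k, Nat.one_le_two_pow, ?_, ?_⟩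
  · have h4 : ((2 ^ k : ℕ) : ℝ) ≤ N := by exact_mod_cast h1
    exact h4.trans (Nat.floor_le (by linarith))
  · have h5 : (2 : ℝ) ^ k / 2 ≤ ((2 ^ k).totient : ℝ) := by
      rcases Nat.eq_zero_or_pos k with h6 | h6
      · rw [h6]
        norm_num
      · rw [Nat.totient_prime_pow Nat.prime_two h6]
        obtain ⟨j, hj⟩ : ∃ j, k = j + 1 := ⟨k - 1, by omega⟩
        rw [hj, Nat.add_sub_cancel]
        push_cast
        rw [pow_succ]
        norm_num
    push_cast at h3
    rw [pow_succ] at h3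
    linarith

/-- the same in terms of proportions -/
lemma proportion {L' L : ℝ} (h0 : 0 < L') {d r : ℕ} (hd : 2 ≤ d) (hr : 1 ≤ r)
    (hrR : (r : ℝ) ≤ (d : ℝ) ^ (L / L' - 1)) :
    (d * r).totient * (exceptional L d).card ≤ d.totient * (exceptional L' (d * r)).card := by
  have h1 : d.totient * ((d * r).totient / d.totient) = (d * r).totient :=
    Nat.mul_div_cancel' (Nat.totient_dvd_of_dvd (Dvd.intro r rfl))
  calc (d * r).totient * (exceptional L d).card
      = d.totient * ((d * r).totient / d.totient * (exceptional L d).card) := by rw [← mul_assoc, h1]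
    _ ≤ _ := Nat.mul_le_mul_left _ (multiply h0 hd hr hrR)

/-- **From few exceptional classes to none.** -/
lemma transfer {L θ K : ℝ} (hL : 0 < L) (hθ0 : 0 ≤ θ) (hθ : θ < 1)
    (hb : ∀ᶠ m : ℕ in atTop, ((exceptional L m).card : ℝ) ≤ (m : ℝ) ^ θ) (hK : L / (1 - θ) < K) :
    ∀ᶠ d : ℕ in atTop, exceptional K d = ∅ := by
  have h1 : 0 < 1 - θ := by linarith
  have hK1 : L < K * (1 - θ) := by rwa [div_lt_iff₀ h1] at hK
  have hKL : L < K := by
    have : 0 < K := by
      by_contra hc
      push Not at hc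
      nlinarith
    nlinarith
  set c : ℝ := K / L - 1 - K / L * θ with hc
  have hc0 : 0 < c := by
    have : c = (K * (1 - θ) - L) / L := by
      rw [hc]
      field_simp
      ring
    rw [this]
    exact div_pos (by linarith) hL
  have hexp : 0 ≤ K / L - 1 := by
    have : 1 ≤ K / L := by rw [le_div_iff₀ hL]; linarith
    linarith
  have ht2 : Tendsto (fun d : ℕ => (d : ℝ) ^ c) atTop atTop :=
    (tendsto_rpow_atTop hc0).comp tendsto_natCast_atTop_atTop
  obtain ⟨M, hM⟩ := eventually_atTop.1 hb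
  filter_upwards [eventually_ge_atTop M, ht2.eventually_gt_atTop 4, eventually_ge_atTop 2] with d e1 e2 e3
  by_contra hcon
  have hne : 1 ≤ (exceptional K d).card := Finset.card_pos.2 (Finset.nonempty_iff_ne_empty.2 hcon)
  have hd0 : (0 : ℝ) < d := by exact_mod_cast (by omega : 0 < d)
  have hd1 : (1 : ℝ) ≤ d := by exact_mod_cast (by omega : 1 ≤ d)
  obtain ⟨r, hr1, hrR, hrt⟩ := choose_r (Real.one_le_rpow hd1 hexp)
  have hm := multiply hL e3 hr1 hrR
  have hdr : M ≤ d * r := e1.trans (Nat.le_mul_of_pos_right d hr1)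
  have hφ : r.totient ≤ (d * r).totient / d.totient := by
    rw [Nat.le_div_iff_mul_le (Nat.totient_pos.2 (by omega)), mul_comm]
    exact Nat.totient_super_multiplicative d r
  have h4 : r.totient ≤ (exceptional L (d * r)).card :=
    calc r.totient ≤ (d * r).totient / d.totient * 1 := by rw [mul_one]; exact hφ
      _ ≤ (d * r).totient / d.totient * (exceptional K d).card := Nat.mul_le_mul_left _ hne
      _ ≤ _ := hm
  have h5 : (r.totient : ℝ) ≤ ((exceptional L (d * r)).card : ℝ) := by exact_mod_cast h4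
  have hdR : (d : ℝ) * (d : ℝ) ^ (K / L - 1) = (d : ℝ) ^ (K / L) := by
    rw [mul_comm, ← Real.rpow_add_one hd0.ne']
    congr 1
    ring
  have hDX : ((d * r : ℕ) : ℝ) ≤ (d : ℝ) ^ (K / L) := by
    push_cast
    rw [← hdR]
    exact mul_le_mul_of_nonneg_left hrR hd0.le
  have h6 : ((d * r : ℕ) : ℝ) ^ θ ≤ (d : ℝ) ^ (K / L * θ) := by
    rw [Real.rpow_mul hd0.le]
    exact Real.rpow_le_rpow (Nat.cast_nonneg _) hDX hθ0
  have h7 := hrt.trans (h5.trans ((hM _ hdr).trans h6))
  have e5 : (d : ℝ) ^ (K / L - 1) = (d : ℝ) ^ c * (d : ℝ) ^ (K / L * θ) := by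
    rw [← Real.rpow_add hd0]
    congr 1
    rw [hc]
    ring
  rw [e5] at h7
  have e6 : 0 < (d : ℝ) ^ (K / L * θ) := Real.rpow_pos_of_pos hd0 _
  nlinarith

/-- **The exceptional classes of Chowla's problem multiply.** -/
theorem result :
    -- the proportion of the exceptional classes does not decrease
    (∀ L' L : ℝ, 0 < L' → L' < L → ∀ d r : ℕ, 2 ≤ d → 1 ≤ r → (r : ℝ) ≤ (d : ℝ) ^ (L / L' - 1) →
      (d * r).totient * (exceptional L d).card ≤ d.totient * (exceptional L' (d * r)).card) ∧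
    -- from few exceptional classes to none
    (∀ L θ K : ℝ, 0 < L → 0 ≤ θ → θ < 1 →
      (∀ᶠ m : ℕ in atTop, ((exceptional L m).card : ℝ) ≤ (m : ℝ) ^ θ) → L / (1 - θ) < K →
      ∀ᶠ d : ℕ in atTop, exceptional K d = ∅) ∧
    -- Chowla's conjecture
    ((∀ ε : ℝ, 0 < ε → ∀ᶠ d : ℕ in atTop, exceptional (1 + ε) d = ∅) ↔
      ∀ ε : ℝ, 0 < ε → ∀ η : ℝ, 0 < η → ∀ᶠ m : ℕ in atTop,
        ((exceptional (1 + ε) m).card : ℝ) ≤ (m : ℝ) ^ η) := by
  refine ⟨fun L' L h0 _ d r hd hr hR => proportion h0 hd hr hR,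
    fun L θ K hL h0 h1 hb hK => transfer hL h0 h1 hb hK, fun h ε hε η hη => ?_, fun h ε hε => ?_⟩
  · filter_upwards [h ε hε] with m hm
    rw [hm, card_empty, Nat.cast_zero]
    positivity
  · have h2 : 0 < 1 + 3 * ε / 4 := by linarith
    have h3 : 0 < 1 + ε / 2 := by linarith
    refine transfer (L := 1 + ε / 2) (θ := 1 - (1 + ε / 2) / (1 + 3 * ε / 4)) h3 ?_ ?_ ?_ ?_
    · rw [sub_nonneg, div_le_one h2]
      linarith
    · have : 0 < (1 + ε / 2) / (1 + 3 * ε / 4) := div_pos h3 h2
      linarith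
    · refine h (ε / 2) (by linarith) _ ?_
      rw [sub_pos, div_lt_one h2]
      linarith
    · have e : (1 + ε / 2) / (1 - (1 - (1 + ε / 2) / (1 + 3 * ε / 4))) = 1 + 3 * ε / 4 := by
        field_simp
        ring
      rw [e]
      linarith

end Pool.Agent.Results.MP_42948a_nt.ExceptionalClassesMultiply
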