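import Mathlib

/-!
# Exceptions to Chowla's bound for the least primes in progressions cannot be sparse

Let `p(d)` be the largest of the least primes in the reduced classes modulo `d`, and call `d` an exception
to the exponent `L` if `p(d) ≥ d ^ L`.

* If `d` is an exception to the exponent `L` and `0 < L' < L`, then there are at least `X ^ (1 - L' / L) / 2`
  exceptions to the exponent `L'` up to `X = d ^ (L / L')`.
* If all but at most `X ^ θ` of the moduli up to `X` satisfy `p(D) < D ^ L`, for all large `X`, then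
  `p(d) < d ^ (L / (1 - θ) + ε)` for ALL large `d`.
* Chowla's conjecture (`p(d) < d ^ (1 + ε)` for all large `d`) is equivalent to: for all `ε, η > 0` all but at
  most `X ^ η` of the moduli up to `X` satisfy `p(d) < d ^ (1 + ε)`.

Proof: `p(d r) ≥ p(d)`, because a prime in a class modulo `d r` is in a class modulo `d`.
-/

set_option autoImplicit false

namespace Pool.Agent.Results.MP_42948a_nt.ExceptionsAreNotSparse

open Finset Filter

/-- the least prime `p ≡ a (mod d)`; for `a < d` this is the least prime of the form `a + k d`, `k ≥ 0` -/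
noncomputable def leastPrime (d a : ℕ) : ℕ := sInf {p : ℕ | p.Prime ∧ p ≡ a [MOD d]}

/-- `p(d)`, the largest of the least primes in the reduced classes modulo `d` -/
noncomputable def maxLeastPrime (d : ℕ) : ℕ :=
  ((range d).filter (fun a => a.Coprime d)).sup (leastPrime d)

/-- the moduli `2 ≤ d ≤ X` with `p(d) ≥ d ^ L` -/
def exceptions (L X : ℝ) : Set ℕ :=
  {d : ℕ | 2 ≤ d ∧ (d : ℝ) ≤ X ∧ (d : ℝ) ^ L ≤ maxLeastPrime d}

lemma exceptions_finite (L X : ℝ) : (exceptions L X).Finite :=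
  (Set.finite_Iic ⌊X⌋₊).subset fun _ hd => Nat.le_floor hd.2.1

/-- the least primes of multiples of `d` are at least as large -/
lemma mono {d r : ℕ} (hd : 2 ≤ d) (hr : 1 ≤ r) : maxLeastPrime d ≤ maxLeastPrime (d * r) := by
  unfold maxLeastPrime
  refine Finset.sup_le fun a ha => ?_
  rw [mem_filter, mem_range] at ha
  have hdr : 0 < d * r := Nat.mul_pos (by omega) hr
  obtain ⟨q, hqd, hq, hqa⟩ := Nat.forall_exists_prime_gt_and_modEq (d * r) (by omega : d ≠ 0) ha.2
  have hcop : (q % (d * r)).Coprime (d * r) := by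
    have h1 : q.Coprime (d * r) := Nat.coprime_of_lt_prime hdr.ne' hqd hq
    rw [Nat.Coprime, ← Nat.gcd_rec, Nat.gcd_comm]
    exact h1
  have hne : {p : ℕ | p.Prime ∧ p ≡ q % (d * r) [MOD d * r]}.Nonempty :=
    ⟨q, hq, (Nat.mod_modEq q (d * r)).symm⟩
  have hmem := Nat.sInf_mem hne
  have hle : leastPrime d a ≤ leastPrime (d * r) (q % (d * r)) := by
    unfold leastPrime
    refine Nat.sInf_le ⟨hmem.1, ?_⟩
    have h2 : sInf {p : ℕ | p.Prime ∧ p ≡ q % (d * r) [MOD d * r]} ≡ q [MOD d] :=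
      (hmem.2.trans (Nat.mod_modEq q (d * r))).of_mul_right r
    exact h2.trans hqa
  refine hle.trans (Finset.le_sup (f := leastPrime (d * r)) ?_)
  rw [mem_filter, mem_range]
  exact ⟨Nat.mod_lt _ hdr, hcop⟩

/-- **Propagation.** -/
lemma propagate {L' L : ℝ} (h0 : 0 < L') (h : L' < L) {d : ℕ} (hd : 2 ≤ d)
    (hv : (d : ℝ) ^ L ≤ maxLeastPrime d) :
    (d : ℝ) ^ (L / L' - 1) / 2 ≤ ((exceptions L' ((d : ℝ) ^ (L / L'))).ncard : ℝ) := by
  classical
  have hd1 : (1 : ℝ) ≤ d := by exact_mod_cast (by omega : 1 ≤ d)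
  have hd0 : (0 : ℝ) < d := by linarith
  set R : ℝ := (d : ℝ) ^ (L / L' - 1) with hR
  have hexp : 0 ≤ L / L' - 1 := by
    have : 1 ≤ L / L' := by rw [le_div_iff₀ h0]; linarith
    linarith
  have hR1 : 1 ≤ R := Real.one_le_rpow hd1 hexp
  have hfl : R / 2 ≤ ⌊R⌋₊ := by
    have h1 : R < ⌊R⌋₊ + 1 := Nat.lt_floor_add_one R
    have h2 : (1 : ℝ) ≤ ⌊R⌋₊ := by
      exact_mod_cast (Nat.le_floor (by simpa using hR1) : 1 ≤ ⌊R⌋₊)
    linarith
  have hdR : (d : ℝ) * R = (d : ℝ) ^ (L / L') := by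
    rw [hR, mul_comm, ← Real.rpow_add_one hd0.ne']
    congr 1
    ring
  have hsub : (((Icc 1 ⌊R⌋₊).image (fun r => d * r) : Finset ℕ) : Set ℕ) ⊆
      exceptions L' ((d : ℝ) ^ (L / L')) := by
    intro D hD
    rw [coe_image, Set.mem_image] at hD
    obtain ⟨r, hr, rfl⟩ := hD
    rw [mem_coe, mem_Icc] at hr
    have hrR : (r : ℝ) ≤ R := by
      have h3 : (r : ℝ) ≤ ⌊R⌋₊ := by exact_mod_cast hr.2
      exact h3.trans (Nat.floor_le (by linarith))
    have hDX : ((d * r : ℕ) : ℝ) ≤ (d : ℝ) ^ (L / L') := by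
      push_cast
      rw [← hdR]
      exact mul_le_mul_of_nonneg_left hrR hd0.le
    refine ⟨?_, hDX, ?_⟩
    · calc 2 ≤ d * 1 := by omega
        _ ≤ d * r := Nat.mul_le_mul_left d hr.1
    · calc ((d * r : ℕ) : ℝ) ^ L' ≤ ((d : ℝ) ^ (L / L')) ^ L' :=
            Real.rpow_le_rpow (Nat.cast_nonneg _) hDX h0.le
        _ = (d : ℝ) ^ L := by
            rw [← Real.rpow_mul hd0.le]
            congr 1
            field_simp
        _ ≤ maxLeastPrime d := hv
        _ ≤ maxLeastPrime (d * r) := by exact_mod_cast mono hd hr.1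
  have hcard : ((Icc 1 ⌊R⌋₊).image (fun r => d * r)).card = ⌊R⌋₊ := by
    rw [card_image_of_injective _ (fun x y hxy => Nat.eq_of_mul_eq_mul_left (by omega) hxy), Nat.card_Icc]
    omega
  have hle := Set.ncard_le_ncard hsub (exceptions_finite _ _)
  rw [Set.ncard_coe_finset, hcard] at hle
  exact hfl.trans (by exact_mod_cast hle)

/-- **From almost all moduli to all moduli.** -/
lemma transfer {L θ K : ℝ} (hL : 0 < L) (hθ0 : 0 ≤ θ) (hθ : θ < 1)
    (hb : ∀ᶠ X : ℝ in atTop, ((exceptions L X).ncard : ℝ) ≤ X ^ θ) (hK : L / (1 - θ) < K) :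
    ∀ᶠ d : ℕ in atTop, (maxLeastPrime d : ℝ) < (d : ℝ) ^ K := by
  have h1 : 0 < 1 - θ := by linarith
  have hK1 : L < K * (1 - θ) := by rwa [div_lt_iff₀ h1] at hK
  have hKL : L < K := by
    have : 0 < K := by
      by_contra hc
      push Not at hc
      nlinarith
    nlinarith
  set c : ℝ := K / L - 1 - K / L * θ with hc
  have hc0 : 0 < c := by
    have : c = (K * (1 - θ) - L) / L := by
      rw [hc]
      field_simp
      ring
    rw [this]
    exact div_pos (by linarith) hL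
  have hKL0 : 0 < K / L := div_pos (by linarith) hL
  have ht1 : Tendsto (fun d : ℕ => (d : ℝ) ^ (K / L)) atTop atTop :=
    (tendsto_rpow_atTop hKL0).comp tendsto_natCast_atTop_atTop
  have ht2 : Tendsto (fun d : ℕ => (d : ℝ) ^ c) atTop atTop :=
    (tendsto_rpow_atTop hc0).comp tendsto_natCast_atTop_atTop
  filter_upwards [ht1.eventually hb, ht2.eventually_gt_atTop 2, eventually_ge_atTop 2] with d e1 e2 e3
  by_contra hcon
  push Not at hcon
  have hd0 : (0 : ℝ) < d := by exact_mod_cast (by omega : 0 < d)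
  have e4 := (propagate hL hKL e3 hcon).trans e1
  rw [← Real.rpow_mul hd0.le] at e4
  have e5 : (d : ℝ) ^ (K / L - 1) = (d : ℝ) ^ c * (d : ℝ) ^ (K / L * θ) := by
    rw [← Real.rpow_add hd0]
    congr 1
    rw [hc]
    ring
  rw [e5] at e4
  have e6 : 0 < (d : ℝ) ^ (K / L * θ) := Real.rpow_pos_of_pos hd0 _
  nlinarith

/-- **Exceptions to Chowla's bound cannot be sparse.** -/
theorem result :
    -- one exception gives many exceptions
    (∀ L' L : ℝ, 0 < L' → L' < L → ∀ d : ℕ, 2 ≤ d → (d : ℝ) ^ L ≤ maxLeastPrime d →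
      (d : ℝ) ^ (L / L' - 1) / 2 ≤ ((exceptions L' ((d : ℝ) ^ (L / L'))).ncard : ℝ)) ∧
    -- from almost all moduli to all moduli
    (∀ L θ K : ℝ, 0 < L → 0 ≤ θ → θ < 1 →
      (∀ᶠ X : ℝ in atTop, ((exceptions L X).ncard : ℝ) ≤ X ^ θ) → L / (1 - θ) < K →
      ∀ᶠ d : ℕ in atTop, (maxLeastPrime d : ℝ) < (d : ℝ) ^ K) ∧
    -- Chowla's conjecture
    ((∀ ε : ℝ, 0 < ε → ∀ᶠ d : ℕ in atTop, (maxLeastPrime d : ℝ) < (d : ℝ) ^ (1 + ε)) ↔
      ∀ ε : ℝ, 0 < ε → ∀ η : ℝ, 0 < η → ∀ᶠ X : ℝ in atTop,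
        ((exceptions (1 + ε) X).ncard : ℝ) ≤ X ^ η) := by
  refine ⟨fun L' L h0 h d hd hv => propagate h0 h hd hv,
    fun L θ K hL h0 h1 hb hK => transfer hL h0 h1 hb hK, fun h ε hε η hη => ?_, fun h ε hε => ?_⟩
  · obtain ⟨N, hN⟩ := eventually_atTop.1 (h ε hε)
    have hcard : ∀ X : ℝ, ((exceptions (1 + ε) X).ncard : ℝ) ≤ N := by
      intro X
      have hsub : exceptions (1 + ε) X ⊆ ((range N : Finset ℕ) : Set ℕ) := by
        intro d hd
        rw [mem_coe, mem_range]
        by_contra hc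
        push Not at hc
        exact absurd (hN d hc) (not_lt.2 hd.2.2)
      have h1 := Set.ncard_le_ncard hsub (Finset.finite_toSet _)
      rw [Set.ncard_coe_finset, card_range] at h1
      exact_mod_cast h1
    filter_upwards [(tendsto_rpow_atTop hη).eventually_ge_atTop (N : ℝ)] with X hX
    exact (hcard X).trans hX
  · have h2 : 0 < 1 + 3 * ε / 4 := by linarith
    have h3 : 0 < 1 + ε / 2 := by linarith
    refine transfer (L := 1 + ε / 2) (θ := 1 - (1 + ε / 2) / (1 + 3 * ε / 4)) h3 ?_ ?_ ?_ ?_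
    · rw [sub_nonneg, div_le_one h2]
      linarith
    · have : 0 < (1 + ε / 2) / (1 + 3 * ε / 4) := div_pos h3 h2
      linarith
    · refine h (ε / 2) (by linarith) _ ?_
      rw [sub_pos, div_lt_one h2]
      linarith
    · have e : (1 + ε / 2) / (1 - (1 - (1 + ε / 2) / (1 + 3 * ε / 4))) = 1 + 3 * ε / 4 := by
        field_simp
        ring
      rw [e]
      linarith

end Pool.Agent.Results.MP_42948a_nt.ExceptionsAreNotSparse
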