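import Mathlib
import Pool.Agent.K9h19.LW.LD8
import Pool.Agent.K9h19.LW.SpB
import Pool.Agent.K9h19.LW.TD
import Pool.Agent.K9h19.LW.RL
import Pool.Agent.K9h19.LW.SD
import Pool.Agent.K9h19.LW.TOT
import Pool.Agent.K9h19.LW.AVG
import Pool.Agent.K9h19.LW.UP
import Pool.Agent.K9h19.LW.PAIR
import Pool.Agent.K9h19.LW.ABEL
import Pool.Agent.K9h19.LW.GAIN
import Pool.Agent.K9h19.LW.SM
import Pool.Agent.K9h19.LW.SPLIT
import Pool.Agent.K9h19.LW.MVF
import Pool.Agent.K9h19.LW.SQ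

/-!
# The distribution of the least primes in the classes of most moduli, of the quality of GRH

On GRH the number of classes `c` modulo `m` without a prime `p < m ^ t` is at most `m ^ (2 - t + o(1))`. We prove
this bound, uniformly in `1 ≤ t ≤ 3`, for most moduli: for every `ν > 0` all moduli `m` in `(M, 2 M]`, except the multiples
of one `q₁ > (log M) ^ B` and at most `C M exp (- η / ρ)` others, `2 / √(log M) ≤ ρ ≤ ν / 64`, have, for all `t` at once, at most
`m ^ (2 - t + ν)` classes `c` for which the primes `p ≡ c` of the window `(m ^ (t - ν), m ^ t)` are fewer, on the logarithmic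
scale, than a constant times their expected number; and among the moduli whose `M ^ ρ`-smooth part is at most `M ^ η` (such as
the primes) at most `M ^ (1 - ρ / 4)` fail. For `t` near one almost every class contains a prime `p < m ^ t` (Chowla's
conjecture outside a power saving set of classes), for `t > 2 + ν` every class does.

Proof: a Linnik type lower bound for the primes of every class modulo `g ≤ M ^ η` in every window (Selberg's identity on
rough numbers), applied to the smooth part `g` of `m`; the deviation of the classes modulo `m` from those modulo `g` is split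
by the conductor of the characters, conductors up to `√x` by Vaughan's identity (for all classes), the others in mean
square, both with the large sieve; finally Rankin's bound for the moduli with a large smooth part.
-/

set_option autoImplicit false

open Finset

namespace Pool.Agent.Results.MP_42948a_nt.GRHQualityMostModuli

/-- the primes `p ≡ c` modulo `m` with `m ^ (t - ν) < p < m ^ t` satisfy `∑ log p / p ≥ κ log m / φ(m)` -/
def Many (t ν κ : ℝ) (m c : ℕ) : Prop :=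
  κ * Real.log m / m.totient ≤
    ∑ p ∈ (Icc 1 ⌊(m : ℝ) ^ t⌋₊).filter (fun p => p.Prime ∧ p ≡ c [MOD m] ∧
      (m : ℝ) ^ (t - ν) < p ∧ (p : ℝ) < (m : ℝ) ^ t), Real.log p / p

open Classical in
/-- the number of classes `0 ≤ c < m` prime to `m` for which this fails -/
noncomputable def few (t ν κ : ℝ) (m : ℕ) : ℕ :=
  ((range m).filter (fun c => c.Coprime m ∧ ¬ Many t ν κ m c)).card

/-- the bound of GRH quality for all exponents -/
def Good (ν κ : ℝ) (m : ℕ) : Prop := ∀ t : ℝ, 1 ≤ t → t ≤ 3 → (few t ν κ m : ℝ) ≤ (m : ℝ) ^ (2 - t + ν)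

/-- the `y`-smooth part of `m` -/
noncomputable def smoothPart (y : ℝ) (m : ℕ) : ℕ :=
  ∏ p ∈ m.primeFactors.filter (fun p : ℕ => (p : ℝ) ≤ y), p ^ m.factorization p

open Classical in
theorem result : ∀ ν : ℝ, 0 < ν → ν ≤ 1 → ∃ κ η C : ℝ, 0 < κ ∧ 0 < η ∧ 0 < C ∧ ∀ B : ℕ, ∃ M₀ : ℕ, ∀ M : ℕ, M₀ ≤ M →
    ∃ q₁ : ℕ, (Real.log M) ^ B < (q₁ : ℝ) ∧ ∀ ρ : ℝ, 2 / √(Real.log M) ≤ ρ → ρ ≤ ν / 64 →
      (((Ioc M (2 * M)).filter (fun m => ¬ q₁ ∣ m ∧ (smoothPart ((M : ℝ) ^ ρ) m : ℝ) ≤ (M : ℝ) ^ η ∧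
          ¬ Good ν κ m)).card : ℝ) ≤ (M : ℝ) ^ (1 - ρ / 4) ∧
      (((Ioc M (2 * M)).filter (fun m => ¬ q₁ ∣ m ∧ ¬ Good ν κ m)).card : ℝ) ≤ C * M * Real.exp (-(η / ρ)) := by
  have hAVG := Pool.Agent.K9h19.LW.avg (Pool.Agent.K9h19.LW.sd Pool.Agent.K9h19.LW.td Pool.Agent.K9h19.LW.rl)
    Pool.Agent.K9h19.LW.tot
  have hUP := Pool.Agent.K9h19.LW.up hAVG
  have hLWU := Pool.Agent.K9h19.LW.lwu (Pool.Agent.K9h19.LW.core hAVG hUP Pool.Agent.K9h19.LW.pair
    Pool.Agent.K9h19.LW.abel (Pool.Agent.K9h19.LW.gain hUP))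
  have hcount := Pool.Agent.K9h19.LW.ldcount hLWU Pool.Agent.K9h19.LW.split Pool.Agent.K9h19.LW.mvf
    Pool.Agent.K9h19.LW.sq Pool.Agent.K9h19.LW.sm
  intro ν hν hν1
  obtain ⟨κ, η, C, hκ, hη, hC, h⟩ := hcount ν hν hν1
  refine ⟨κ, η, C, hκ, hη, hC, fun B => ?_⟩
  obtain ⟨M₀, hM₀⟩ := h B
  refine ⟨M₀, fun M hM => ?_⟩
  obtain ⟨q₁, hq₁, hρ⟩ := hM₀ M hM
  refine ⟨q₁, hq₁, fun ρ h1 h2 => ?_⟩
  obtain ⟨h3, h4⟩ := hρ ρ h1 h2
  refine ⟨?_, h4⟩
  have e : ∀ m : ℕ, smoothPart ((M : ℝ) ^ ρ) m = Pool.Agent.K9h19.LW.sp ⌊(M : ℝ) ^ ρ⌋₊ m := fun m =>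
    (Pool.Agent.K9h19.LW.sp_floor' _ (Real.rpow_nonneg (Nat.cast_nonneg M) ρ) m).symm
  simp only [e]
  exact h3

end Pool.Agent.Results.MP_42948a_nt.GRHQualityMostModuli
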