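import Pool.Agent.K9h59.LP.B

/-!
Least primes in progressions, for many residues at once: outside few moduli (the same ones for all sets
of residues) and, over any set of `D ^ η` residues of any size up to the height, outside few residues on
average, every modulus `d ∈ (D, 2D]` has its primes `≡ a (mod d)` equidistributed at the height
`D ^ lam`, `lam > 27 / 14` (squarefree smooth moduli: `lam > 9 / 5`); in particular `p(d, a) < d ^ lam`.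
-/

set_option autoImplicit false

namespace Pool.Agent.Results.MP_42948a_nt.ManyResiduesBeyondSquare

open Finset
open Pool.Agent.H442R2.KF Pool.Agent.K9h59.LP

/-- some prime below `d ^ lam` is `≡ a (mod d)` -/
def HasPrime (lam : ℝ) (d a : ℕ) : Prop :=
  ∃ p : ℕ, p.Prime ∧ p ≡ a [MOD d] ∧ (p : ℝ) < (d : ℝ) ^ lam

/-- the statement at the exponent `lam`, for the moduli `d ∈ (D, 2D]` with `F η D d` -/
def ManyResidues (lam : ℝ) (F : ℝ → ℕ → ℕ → Prop) : Prop :=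
  ∃ η : ℝ, 0 < η ∧ ∀ U : ℕ, 2 ≤ U → ∃ B D₀ : ℕ, ∀ D : ℕ, D₀ ≤ D →
    (∀ d ∈ Ioc D (2 * D), ∀ a : ℕ, Reg lam U D d a → HasPrime lam d a) ∧
    ∃ Z : Finset ℕ, Z ⊆ Ioc D (2 * D) ∧ (Z.card : ℝ) ≤ D / Real.log D ^ U ∧
      ∀ A : Finset ℕ, A ⊆ Icc 1 ⌊(D : ℝ) ^ lam⌋₊ → (A.card : ℝ) ≤ (D : ℝ) ^ η →
        ∀ S : Finset ℕ, (∀ d ∈ S, d ∈ Ioc D (2 * D) ∧ d ∉ Z ∧ F η D d) →
          ∑ d ∈ S, ((ex lam U D A d).card : ℝ) ≤ D * Real.log D ^ B

/-- from the bound over the subsets -/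
theorem many_of (lam : ℝ) (hlam : 1 ≤ lam) (F : ℝ → ℕ → ℕ → Prop)
    (h : ∃ η : ℝ, 0 < η ∧ ∀ U : ℕ, ∃ B D₀ : ℕ, ∀ D : ℕ, D₀ ≤ D → ∃ Z : Finset ℕ, Z ⊆ Ioc D (2 * D) ∧
      (Z.card : ℝ) ≤ D / Real.log D ^ U ∧
      ∀ A : Finset ℕ, A ⊆ Icc 1 ⌊(D : ℝ) ^ lam⌋₊ → (A.card : ℝ) ≤ (D : ℝ) ^ η →
        ∀ S : Finset ℕ, (∀ d ∈ S, d ∈ Ioc D (2 * D) ∧ F η D d) →
        ∑ d ∈ S \ Z, ((ex lam U D A d).card : ℝ) ≤ D * Real.log D ^ B) :
    ManyResidues lam F := by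
  classical
  obtain ⟨η, hη, h⟩ := h
  refine ⟨η, hη, fun U hU => ?_⟩
  obtain ⟨B, D₀, hB⟩ := h U
  obtain ⟨D₁, hD₁⟩ := reg_prime lam hlam U hU
  refine ⟨B, D₀ + D₁, fun D hD => ⟨hD₁ D (by omega), ?_⟩⟩
  obtain ⟨Z, hZ1, hZ2, hZ3⟩ := hB D (by omega)
  refine ⟨Z, hZ1, hZ2, fun A hA hc S hS => ?_⟩
  have e1 := hZ3 A hA hc S (fun d hd => ⟨(hS d hd).1, (hS d hd).2.2⟩)
  have e2 : S \ Z = S := by
    rw [Finset.sdiff_eq_self_iff_disjoint, disjoint_left]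
    intro d hd
    exact (hS d hd).2.1
  rw [e2] at e1
  exact e1

/-- Least primes in progressions for many residues, below the square of the modulus. -/
theorem result :
    (∀ lam : ℝ, 27 / 14 < lam → ManyResidues lam (fun _ _ _ => True)) ∧
    ∀ lam : ℝ, 9 / 5 < lam → ManyResidues lam
      (fun η D d => Squarefree d ∧ ∀ p : ℕ, p.Prime → p ∣ d → (p : ℝ) ≤ (D : ℝ) ^ η) := by
  constructor
  · intro lam hlam
    refine many_of lam (by linarith) _ ?_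
    obtain ⟨η, hη, h⟩ := all_mod lam hlam
    refine ⟨η, hη, fun U => ?_⟩
    obtain ⟨B, D₀, hB⟩ := h U
    refine ⟨B, D₀, fun D hD => ?_⟩
    obtain ⟨Z, hZ1, hZ2, hZ3⟩ := hB D hD
    refine ⟨Z, hZ1, hZ2, fun A hA hc S hS => (sum_le_sum_of_subset_of_nonneg ?_ ?_).trans (hZ3 A hA hc)⟩
    · intro d hd
      rw [mem_sdiff] at hd ⊢
      exact ⟨(hS d hd.1).1, hd.2⟩
    · intro d _ _
      positivity
  · intro lam hlam
    exact many_of lam (by linarith) _ (smooth_mod lam hlam)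

end Pool.Agent.Results.MP_42948a_nt.ManyResiduesBeyondSquare
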